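import Mathlib
import Pool.Agent.Q264.LK.Stm

/-!
# Job LK-LOW (project LK of helper264): the lower bound
-/

set_option autoImplicit false

open Finset MeasureTheory Filter Topology
open scoped Classical

namespace Pool.Agent.Q182.LK

open Pool.Agent.Q264.LK

variable {n : ℕ}

/-- the number of orderings for which the places `i`, `j` are adjacent -/
noncomputable def gg (G : SimpleGraph (Fin n)) (i j : Fin n) : ℕ :=
  ∑ σ : Equiv.Perm (Fin n), if G.Adj (σ i) (σ j) then 1 else 0

theorem gg_self (G : SimpleGraph (Fin n)) (i : Fin n) : gg G i i = 0 := by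
  unfold gg
  apply Finset.sum_eq_zero
  intro σ _
  rw [if_neg (G.irrefl)]

theorem exists_two {i j i' j' : Fin n} (h : i ≠ j) (h' : i' ≠ j') :
    ∃ τ : Equiv.Perm (Fin n), τ i' = i ∧ τ j' = j := by
  have h1 : Equiv.swap i' i j' ≠ i := by
    intro h2
    have h3 : Equiv.swap i' i i' = i := Equiv.swap_apply_left _ _
    exact h' ((Equiv.swap i' i).injective (h3.trans h2.symm))
  refine ⟨(Equiv.swap i' i).trans (Equiv.swap (Equiv.swap i' i j') j), ?_, ?_⟩
  · rw [Equiv.trans_apply, Equiv.swap_apply_left]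
    exact Equiv.swap_apply_of_ne_of_ne h1.symm h
  · rw [Equiv.trans_apply, Equiv.swap_apply_left]

theorem gg_eq (G : SimpleGraph (Fin n)) {i j i' j' : Fin n} (h : i ≠ j) (h' : i' ≠ j') :
    gg G i j = gg G i' j' := by
  obtain ⟨τ, h1, h2⟩ := exists_two h h'
  unfold gg
  have h3 := Equiv.sum_comp (Equiv.mulRight τ)
    (fun σ : Equiv.Perm (Fin n) => if G.Adj (σ i') (σ j') then (1 : ℕ) else 0)
  refine Eq.trans (Finset.sum_congr rfl fun σ _ => ?_) h3
  have e1 : (Equiv.mulRight τ σ) i' = σ i := by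
    rw [Equiv.coe_mulRight, Equiv.Perm.mul_apply, h1]
  have e2 : (Equiv.mulRight τ σ) j' = σ j := by
    rw [Equiv.coe_mulRight, Equiv.Perm.mul_apply, h2]
  rw [e1, e2]

theorem dd_map (G : SimpleGraph (Fin n)) (I : Finset (Fin n)) (σ : Equiv.Perm (Fin n)) :
    dd G (I.map σ.toEmbedding) = ∑ i ∈ I, ∑ j ∈ I, if G.Adj (σ i) (σ j) then 1 else 0 := by
  unfold dd
  rw [Finset.sum_map]
  refine Finset.sum_congr rfl fun i _ => ?_
  rw [Finset.card_filter, Finset.sum_map]
  rfl

theorem sum_dd (G : SimpleGraph (Fin n)) (I : Finset (Fin n)) {i₀ j₀ : Fin n} (h : i₀ ≠ j₀) :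
    ∑ σ : Equiv.Perm (Fin n), dd G (I.map σ.toEmbedding) = I.card * ((I.card - 1) * gg G i₀ j₀) := by
  simp only [dd_map]
  rw [Finset.sum_comm]
  have h1 : ∀ i ∈ I, ∑ σ : Equiv.Perm (Fin n), ∑ j ∈ I, (if G.Adj (σ i) (σ j) then 1 else 0) =
      (I.card - 1) * gg G i₀ j₀ := by
    intro i hi
    rw [Finset.sum_comm]
    have h2 : ∀ j ∈ I, (∑ σ : Equiv.Perm (Fin n), if G.Adj (σ i) (σ j) then 1 else 0) =
        if j = i then 0 else gg G i₀ j₀ := by
      intro j _
      split_ifs with hj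
      · rw [hj]
        exact gg_self G i
      · exact gg_eq G (Ne.symm hj) h
    rw [Finset.sum_congr rfl h2, Finset.sum_ite, Finset.sum_const_zero, zero_add,
      Finset.sum_const, smul_eq_mul]
    congr 1
    rw [Finset.filter_ne', Finset.card_erase_of_mem hi]
  rw [Finset.sum_congr rfl h1, Finset.sum_const, smul_eq_mul]

theorem CC_le (G : SimpleGraph (Fin n)) (A : Set (Fin n)) : CC G A ≤ n := by
  unfold CC
  have h1 : Nat.card (G.induce A).ConnectedComponent ≤ Nat.card A :=
    Nat.card_le_card_of_surjective (G.induce A).connectedComponentMk Quot.mk_surjective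
  have h2 : Nat.card A ≤ Nat.card (Fin n) :=
    Nat.card_le_card_of_injective Subtype.val Subtype.val_injective
  rw [Nat.card_fin] at h2
  exact h1.trans h2

theorem val_le (G : SimpleGraph (Fin n)) (A : Equiv.Perm (Fin n) → ℕ) : val G A ≤ n := by
  unfold Pool.Agent.Q264.LK.val
  rw [div_le_iff₀ (by exact_mod_cast Nat.factorial_pos n)]
  calc ∑ σ : Equiv.Perm (Fin n), (CC G (act σ (A σ)) : ℝ) ≤ ∑ _σ : Equiv.Perm (Fin n), (n : ℝ) :=
        Finset.sum_le_sum fun σ _ => by exact_mod_cast CC_le G _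
    _ = n * n.factorial := by
        rw [Finset.sum_const, Finset.card_univ, Fintype.card_perm, Fintype.card_fin, nsmul_eq_mul]
        ring

theorem act_eq (σ : Equiv.Perm (Fin n)) (t : ℕ) :
    act σ t = (((univ.filter fun i : Fin n => i.val < t).map σ.toEmbedding : Finset (Fin n)) :
      Set (Fin n)) := by
  ext v
  rw [Finset.mem_coe, Finset.mem_map]
  simp only [act, Set.mem_ofPred_eq, Finset.mem_filter, Finset.mem_univ, true_and]
  rfl

theorem t_LOW (hEDGE : S_EDGE) (hFOR : S_FOR) : S_LOW := by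
  intro k n G hk hn hG
  obtain ⟨t, ht⟩ : ∃ t, t = n / (2 * k) := ⟨_, rfl⟩
  have hk2 : 0 < 2 * k := by omega
  have ht1 : 1 ≤ t := by
    rw [ht]
    exact (Nat.one_le_div_iff hk2).2 hn
  have ht2 : t * (2 * k) ≤ n := by
    rw [ht]
    exact Nat.div_mul_le_self _ _
  have ht3 : n < (t + 1) * (2 * k) := by
    rw [ht, mul_comm]
    exact Nat.lt_mul_div_succ n hk2
  have htn : t ≤ n := by
    calc t = t * 1 := (mul_one _).symm
      _ ≤ t * (2 * k) := Nat.mul_le_mul_left _ hk2
      _ ≤ n := ht2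
  have hn2 : 2 ≤ n := by omega
  let i₀ : Fin n := ⟨0, by omega⟩
  let j₀ : Fin n := ⟨1, by omega⟩
  have hij : i₀ ≠ j₀ := by
    intro h
    have h0 : (0 : ℕ) = 1 := congrArg Fin.val h
    exact zero_ne_one h0
  obtain ⟨c, hc⟩ : ∃ c, c = gg G i₀ j₀ := ⟨_, rfl⟩
  set I : Finset (Fin n) := univ.filter fun i : Fin n => i.val < t with hI
  have hIc : I.card = t := by
    rw [hI, Fin.card_filter_val_lt]
    exact min_eq_right htn
  -- the total number of edges
  have h1 := sum_dd G univ hij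
  have h2 : ∀ σ : Equiv.Perm (Fin n), (univ : Finset (Fin n)).map σ.toEmbedding = univ := by
    intro σ
    exact Finset.map_univ_equiv σ
  simp only [h2] at h1
  rw [Finset.sum_const, Finset.card_univ, Fintype.card_perm, Finset.card_univ, Fintype.card_fin,
    smul_eq_mul, ← hc] at h1
  have h3 := hEDGE (Fin n) G k hG univ (by rw [Finset.card_univ, Fintype.card_fin]; omega)
  rw [Finset.card_univ, Fintype.card_fin] at h3
  have h4 := sum_dd G I hij
  rw [hIc, ← hc] at h4
  have h5 : ∀ σ : Equiv.Perm (Fin n), 2 * t ≤ 2 * CC G (act σ t) + dd G (I.map σ.toEmbedding) := by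
    intro σ
    have := hFOR (Fin n) G (I.map σ.toEmbedding)
    rwa [Finset.card_map, hIc, ← act_eq] at this
  -- real numbers
  have hnR : (0 : ℝ) < n := by exact_mod_cast (by omega : 0 < n)
  have hn1 : (0 : ℝ) < (n : ℝ) - 1 := by
    have : (2 : ℝ) ≤ n := by exact_mod_cast hn2
    linarith
  have hfac : (0 : ℝ) < (n.factorial : ℝ) := by exact_mod_cast Nat.factorial_pos n
  have hkR : (1 : ℝ) ≤ k := by exact_mod_cast hk
  have htR : (1 : ℝ) ≤ t := by exact_mod_cast ht1
  have g1 : (n.factorial : ℝ) * (dd G univ : ℝ) = n * ((n - 1) * c) := by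
    have := congrArg (Nat.cast : ℕ → ℝ) h1
    push_cast [Nat.cast_sub (by omega : 1 ≤ n)] at this
    exact this
  have g2 : (dd G univ : ℝ) + k * (k + 1) ≤ 2 * k * n := by exact_mod_cast h3
  have g3 : (n : ℝ) * c ≤ n.factorial * (2 * k) := by
    have e1 : (dd G univ : ℝ) ≤ 2 * k * (n - 1) := by nlinarith
    have e2 : ((n : ℝ) * c) * (n - 1) ≤ (n.factorial * (2 * k)) * (n - 1) := by
      have := mul_le_mul_of_nonneg_left e1 hfac.le
      rw [g1] at this
      linarith
    exact le_of_mul_le_mul_right e2 hn1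
  have g4 : ∑ σ : Equiv.Perm (Fin n), (dd G (I.map σ.toEmbedding) : ℝ) = t * ((t - 1) * c) := by
    have := congrArg (Nat.cast : ℕ → ℝ) h4
    push_cast [Nat.cast_sub ht1] at this
    exact this
  have g5 : (n.factorial : ℝ) * (2 * t) ≤
      2 * ∑ σ : Equiv.Perm (Fin n), (CC G (act σ t) : ℝ) + t * ((t - 1) * c) := by
    rw [← g4, Finset.mul_sum, ← Finset.sum_add_distrib]
    calc (n.factorial : ℝ) * (2 * t) = ∑ _σ : Equiv.Perm (Fin n), (2 * t : ℝ) := by
          rw [Finset.sum_const, Finset.card_univ, Fintype.card_perm, Fintype.card_fin,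
            nsmul_eq_mul]
      _ ≤ _ := Finset.sum_le_sum fun σ _ => by exact_mod_cast h5 σ
  have g6 : (n : ℝ) / (4 * k) ≤ val G (fun _ : Equiv.Perm (Fin n) => t) := by
    unfold Pool.Agent.Q264.LK.val
    rw [le_div_iff₀ hfac, div_mul_eq_mul_div, div_le_iff₀ (by positivity)]
    have ht2R : (t : ℝ) * (2 * k) ≤ n := by exact_mod_cast ht2
    have ht3R : (n : ℝ) < (t + 1) * (2 * k) := by exact_mod_cast ht3
    have ht0 : (0 : ℝ) ≤ t - 1 := by linarith
    -- `t (t - 1) c ≤ (t - 1) n!`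
    have e1 : (t : ℝ) * ((t - 1) * c) ≤ (t - 1) * n.factorial := by
      have e2 : (t : ℝ) * c * n ≤ n.factorial * n := by
        calc (t : ℝ) * c * n = t * (n * c) := by ring
          _ ≤ t * (n.factorial * (2 * k)) := mul_le_mul_of_nonneg_left g3 (by positivity)
          _ = n.factorial * (t * (2 * k)) := by ring
          _ ≤ n.factorial * n := mul_le_mul_of_nonneg_left ht2R hfac.le
      have e3 : (t : ℝ) * c ≤ n.factorial := le_of_mul_le_mul_right e2 hnR
      have := mul_le_mul_of_nonneg_left e3 ht0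
      linarith
    have e4 : (n.factorial : ℝ) * (t + 1) ≤
        2 * ∑ σ : Equiv.Perm (Fin n), (CC G (act σ t) : ℝ) := by linarith
    have e5 := mul_le_mul_of_nonneg_left ht3R.le hfac.le
    have e6 := mul_le_mul_of_nonneg_right e4 (by positivity : (0 : ℝ) ≤ 2 * k)
    linarith
  have hst : IsStop (fun _ : Equiv.Perm (Fin n) => t) :=
    ⟨fun _ => ⟨ht1, htn⟩, fun _ _ _ => rfl⟩
  have hle : val G (fun _ : Equiv.Perm (Fin n) => t) ≤ mm G := by
    unfold mm
    refine le_csSup ⟨n, ?_⟩ ⟨_, hst, rfl⟩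
    rintro x ⟨A, _, rfl⟩
    exact val_le G A
  linarith

end Pool.Agent.Q182.LK
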